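import Pool.Agent.helper55.ZI.Spec2

/-! Project ZI, row PUR: change of rings for injective modules. -/

set_option autoImplicit false

namespace Pool.Agent.helper98.ZI

open Pool.Agent.ZI

universe u

theorem PUR : PUR_stmt.{u} := by
  intro R R' _ _ π hπ hreg N _ _ _ hcomp hB I g
  classical
  -- well-definedness
  have hwd : ∀ x y : I, π (x : R) = π (y : R) → g x = g y := by
    intro x y hxy
    obtain ⟨t, ht⟩ := hreg ((x - y : I) : R)
    have h0 : π ((x - y : I) : R) = 0 := by
      rw [Submodule.coe_sub, map_sub, hxy, sub_self]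
    have h1 : (((x - y : I) : R) * t) • (x - y) = x - y := by
      apply Subtype.ext
      rw [Submodule.coe_smul, smul_eq_mul]
      exact ht
    have h2 : g (x - y) = 0 := by
      rw [← h1, map_smul, hcomp, map_mul, h0, zero_mul, zero_smul]
    rw [map_sub] at h2
    exact sub_eq_zero.mp h2
  have hex : ∀ y : (Ideal.map π I), ∃ x : I, π (x : R) = (y : R') := by
    intro y
    obtain ⟨x, hx, hxy⟩ := (Ideal.mem_map_iff_of_surjective π hπ).mp y.2
    exact ⟨⟨x, hx⟩, hxy⟩
  choose p hp using hex
  obtain ⟨h, hh⟩ := hB (Ideal.map π I)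
    { toFun := fun y => g (p y)
      map_add' := by
        intro a b
        rw [← map_add]
        apply hwd
        rw [hp, Submodule.coe_add, Submodule.coe_add, map_add, hp, hp]
      map_smul' := by
        intro c a
        obtain ⟨r, rfl⟩ := hπ c
        rw [RingHom.id_apply, ← hcomp, ← map_smul]
        apply hwd
        rw [hp, Submodule.coe_smul, Submodule.coe_smul, smul_eq_mul, smul_eq_mul, map_mul, hp] }
  refine ⟨{ toFun := fun r => h (π r), map_add' := ?_, map_smul' := ?_ }, ?_⟩
  · intro a b
    rw [map_add, map_add]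
  · intro c a
    rw [RingHom.id_apply, smul_eq_mul, map_mul, ← smul_eq_mul, map_smul, hcomp]
  · intro x hx
    change h (π x) = g ⟨x, hx⟩
    have hm : π x ∈ Ideal.map π I := Ideal.mem_map_of_mem π hx
    rw [hh (π x) hm]
    change g (p ⟨π x, hm⟩) = g ⟨x, hx⟩
    apply hwd
    rw [hp]

end Pool.Agent.helper98.ZI
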